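import Pool.Agent.N963.JT.Fin

/-!
# PT: prime twists of the curves of conductors 15 and 17
-/

set_option autoImplicit false
set_option linter.all false

namespace Pool.Agent.N972.PT

open Finset
open Pool.Agent.N875.X15 (PR ps sgp sgp_mod sgp_abs ch ra ch_odd recip_ch)
open Pool.Agent.N875.P17 (Lm al)
open Pool.Agent.N809.PQ (Sol15 Sg15 B3 B5 Sol21 Sg21 C3 C7)

theorem pr_one {p : ℕ} (hp : p.Prime) (h2 : p ≠ 2) : PR (sgp p) = {p} := by
  unfold Pool.Agent.N875.X15.PR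
  rw [if_pos (sgp_mod hp h2), sgp_abs]
  exact Nat.Prime.primeFactors hp

theorem lm_diag {p : ℕ} (hp : p.Prime) (h2 : p ≠ 2) : Lm (sgp p) p p = 0 := by
  unfold Pool.Agent.N875.P17.Lm
  rw [if_pos rfl, pr_one hp h2]
  simp

theorem js3 (a : ℤ) : jacobiSym a 3 = 1 ↔ a % 3 = 1 := by
  rw [jacobiSym.mod_left]
  have h : a % ((3 : ℕ) : ℤ) = a % 3 := rfl
  rw [h]
  have h3 : a % 3 = 0 ∨ a % 3 = 1 ∨ a % 3 = 2 := by omega
  rcases h3 with h | h | h <;> rw [h] <;> norm_num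

theorem js3n (a : ℤ) : jacobiSym a 3 = -1 ↔ a % 3 = 2 := by
  rw [jacobiSym.mod_left]
  have h : a % ((3 : ℕ) : ℤ) = a % 3 := rfl
  rw [h]
  have h3 : a % 3 = 0 ∨ a % 3 = 1 ∨ a % 3 = 2 := by omega
  rcases h3 with h | h | h <;> rw [h] <;> norm_num

theorem js5 (a : ℤ) : jacobiSym a 5 = 1 ↔ (a % 5 = 1 ∨ a % 5 = 4) := by
  rw [jacobiSym.mod_left]
  have h : a % ((5 : ℕ) : ℤ) = a % 5 := rfl
  rw [h]
  have h3 : a % 5 = 0 ∨ a % 5 = 1 ∨ a % 5 = 2 ∨ a % 5 = 3 ∨ a % 5 = 4 := by omega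
  rcases h3 with h | h | h | h | h <;> rw [h] <;> norm_num

theorem js5n (a : ℤ) : jacobiSym a 5 = -1 ↔ (a % 5 = 2 ∨ a % 5 = 3) := by
  rw [jacobiSym.mod_left]
  have h : a % ((5 : ℕ) : ℤ) = a % 5 := rfl
  rw [h]
  have h3 : a % 5 = 0 ∨ a % 5 = 1 ∨ a % 5 = 2 ∨ a % 5 = 3 ∨ a % 5 = 4 := by omega
  rcases h3 with h | h | h | h | h <;> rw [h] <;> norm_num

theorem js7 (a : ℤ) : jacobiSym a 7 = 1 ↔ (a % 7 = 1 ∨ a % 7 = 2 ∨ a % 7 = 4) := by
  rw [jacobiSym.mod_left]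
  have h : a % ((7 : ℕ) : ℤ) = a % 7 := rfl
  rw [h]
  have h3 : a % 7 = 0 ∨ a % 7 = 1 ∨ a % 7 = 2 ∨ a % 7 = 3 ∨ a % 7 = 4 ∨ a % 7 = 5 ∨ a % 7 = 6 := by
    omega
  rcases h3 with h | h | h | h | h | h | h <;> rw [h] <;> norm_num

theorem js7n (a : ℤ) : jacobiSym a 7 = -1 ↔ (a % 7 = 3 ∨ a % 7 = 5 ∨ a % 7 = 6) := by
  rw [jacobiSym.mod_left]
  have h : a % ((7 : ℕ) : ℤ) = a % 7 := rfl
  rw [h]
  have h3 : a % 7 = 0 ∨ a % 7 = 1 ∨ a % 7 = 2 ∨ a % 7 = 3 ∨ a % 7 = 4 ∨ a % 7 = 5 ∨ a % 7 = 6 := by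
    omega
  rcases h3 with h | h | h | h | h | h | h <;> rw [h] <;> norm_num

theorem sg3 : sgp 3 = -3 := by
  norm_num [Pool.Agent.N875.X15.sgp]

theorem sg5 : sgp 5 = 5 := by
  norm_num [Pool.Agent.N875.X15.sgp]

theorem sg7 : sgp 7 = -7 := by
  norm_num [Pool.Agent.N875.X15.sgp]

theorem sg17 : sgp 17 = 17 := by
  norm_num [Pool.Agent.N875.X15.sgp]

section
variable {p : ℕ}

theorem rec3 (hp : p.Prime) (h2 : p ≠ 2) : jacobiSym (-3) p = jacobiSym p 3 := by
  have h := recip_ch hp Nat.prime_three (by norm_num)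
  rw [sg3, ch_odd h2] at h
  exact h

theorem rec5 (hp : p.Prime) (h2 : p ≠ 2) : jacobiSym 5 p = jacobiSym p 5 := by
  have h := recip_ch hp Nat.prime_five (by norm_num)
  rw [sg5, ch_odd h2] at h
  exact h

theorem rec7 (hp : p.Prime) (h2 : p ≠ 2) : jacobiSym (-7) p = jacobiSym p 7 := by
  have h := recip_ch hp (by norm_num : Nat.Prime 7) (by norm_num)
  rw [sg7, ch_odd h2] at h
  exact h

theorem rec17 (hp : p.Prime) (h2 : p ≠ 2) : jacobiSym 17 p = jacobiSym p 17 := by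
  have h := recip_ch hp (by norm_num : Nat.Prime 17) (by norm_num)
  rw [sg17, ch_odd h2] at h
  exact h

theorem ra_of (h2 : p ≠ 2) (a : ℤ) : ra p a = if jacobiSym a p = 1 then 0 else 1 := by
  unfold Pool.Agent.N875.X15.ra
  rw [ch_odd h2]

theorem jneg1 (h : p % 4 = 1) : jacobiSym (-1) p = 1 := by
  rw [jacobiSym.at_neg_one (Nat.odd_iff.2 (by omega)), ZMod.χ₄_nat_one_mod_four h]

theorem jneg3 (h : p % 4 = 3) : jacobiSym (-1) p = -1 := by
  rw [jacobiSym.at_neg_one (Nat.odd_iff.2 (by omega)), ZMod.χ₄_nat_three_mod_four h]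

theorem pm_of (a : ℤ) (h : jacobiSym a p ≠ 0) : jacobiSym a p = 1 ∨ jacobiSym a p = -1 := by
  rcases jacobiSym.trichotomy a p with h1 | h1 | h1
  · exact absurd h1 h
  · exact Or.inl h1
  · exact Or.inr h1

/-- the sign condition, level 15 -/
theorem sign15 (hp : p.Prime) (h2 : p ≠ 2) (h : jacobiSym (-15) p = 1) :
    (jacobiSym p 3 = 1 ∧ jacobiSym p 5 = 1) ∨ (jacobiSym p 3 = -1 ∧ jacobiSym p 5 = -1) := by
  rw [show (-15 : ℤ) = (-3) * 5 by norm_num, jacobiSym.mul_left, rec3 hp h2, rec5 hp h2] at h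
  exact Int.mul_eq_one_iff_eq_one_or_neg_one.1 h

theorem sign17 (hp : p.Prime) (h2 : p ≠ 2) (h : jacobiSym (-17) p = 1) :
    (p % 4 = 1 ∧ jacobiSym p 17 = 1) ∨ (p % 4 = 3 ∧ jacobiSym p 17 = -1) := by
  rw [show (-17 : ℤ) = (-1) * 17 by norm_num, jacobiSym.mul_left, rec17 hp h2] at h
  have hodd := hp.eq_two_or_odd.resolve_left h2
  have h4 : p % 4 = 1 ∨ p % 4 = 3 := by omega
  rcases h4 with h4 | h4
  · rw [jneg1 h4, one_mul] at h
    exact Or.inl ⟨h4, h⟩
  · rw [jneg3 h4] at h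
    exact Or.inr ⟨h4, by linarith⟩

theorem sign21 (hp : p.Prime) (h2 : p ≠ 2) (h : jacobiSym (-21) p = 1) :
    (p % 4 = 1 ∧ ((jacobiSym p 3 = 1 ∧ jacobiSym p 7 = 1) ∨
      (jacobiSym p 3 = -1 ∧ jacobiSym p 7 = -1))) ∨
    (p % 4 = 3 ∧ ((jacobiSym p 3 = 1 ∧ jacobiSym p 7 = -1) ∨
      (jacobiSym p 3 = -1 ∧ jacobiSym p 7 = 1))) := by
  rw [show (-21 : ℤ) = (-1) * ((-3) * (-7)) by norm_num, jacobiSym.mul_left, jacobiSym.mul_left,
    rec3 hp h2, rec7 hp h2] at h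
  have hodd := hp.eq_two_or_odd.resolve_left h2
  have h4 : p % 4 = 1 ∨ p % 4 = 3 := by omega
  rcases h4 with h4 | h4
  · rw [jneg1 h4, one_mul] at h
    exact Or.inl ⟨h4, Int.mul_eq_one_iff_eq_one_or_neg_one.1 h⟩
  · rw [jneg3 h4] at h
    refine Or.inr ⟨h4, ?_⟩
    have h5 : jacobiSym p 3 * jacobiSym p 7 = -1 := by linarith
    exact Int.mul_eq_neg_one_iff_eq_one_or_neg_one.1 h5

/-- **level 15** -/
theorem sg15_prime (hp : p.Prime) (h2 : p ≠ 2) (h : jacobiSym (-15) p = 1)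
    (hx : ¬ (p % 4 = 1 ∧ jacobiSym p 3 = 1 ∧ jacobiSym p 5 = 1)) : Sg15 (sgp p) := by
  have hPR := pr_one hp h2
  have hodd := hp.eq_two_or_odd.resolve_left h2
  have hpos := hp.pos
  have h4 : p % 4 = 1 ∨ p % 4 = 3 := by omega
  have hps : ps (sgp p) p = sgp p := Pool.Agent.N875.X15.ps_odd h2
  have hmem : p ∈ PR (sgp p) := by
    rw [hPR]
    exact mem_singleton_self p
  intro x y s a c H
  have row := H.row p hmem
  have at5 := H.at5
  have at3 := H.at3
  have sgn := H.sgn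
  rw [hPR] at row at5 at3 sgn
  simp only [sum_singleton] at row at5 at3 sgn
  rw [lm_diag hp h2, zero_mul, zero_add] at row
  have r3 : ra p (-3) = if jacobiSym p 3 = 1 then 0 else 1 := by rw [ra_of h2, rec3 hp h2]
  have r5 : ra p 5 = if jacobiSym p 5 = 1 then 0 else 1 := by rw [ra_of h2, rec5 hp h2]
  have key : a = 0 ∧ c = 0 ∧ s = (if 0 < sgp p then x p else 0) := by
    rcases h4 with h4 | h4
    · have hm : sgp p = p := if_pos h4
      have h0 : 0 < sgp p := by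
        rw [hm]
        exact_mod_cast hpos
      obtain ⟨e3, e5⟩ : jacobiSym p 3 = -1 ∧ jacobiSym p 5 = -1 := by
        rcases sign15 hp h2 h with h5 | h5
        · exact absurd ⟨h4, h5.1, h5.2⟩ hx
        · exact h5
      have f3 := (js3n _).1 e3
      have f5 := (js5n _).1 e5
      have b3 : B3 (sgp p) := by
        unfold Pool.Agent.N809.PQ.B3
        rw [hm]
        exact f3
      have b5 : ¬ B5 (sgp p) := by
        unfold Pool.Agent.N809.PQ.B5
        rw [hm]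
        omega
      have hal : al (sgp p) p = 0 := by
        unfold Pool.Agent.N875.P17.al
        rw [hps, if_neg (by omega)]
      have ha := sgn h0
      rw [hal, zero_mul, zero_add] at ha
      have hc := H.c0 b5
      have h3 := at3 b3
      rw [r3, e3, if_neg (by norm_num), one_mul, hc, add_zero] at h3
      refine ⟨ha, hc, ?_⟩
      rw [if_pos h0]
      have := add_eq_zero_iff_eq_neg.1 h3
      rw [this, ZMod.neg_eq_self_mod_two]
    · have hm : sgp p = -p := if_neg (by omega)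
      have h0 : sgp p < 0 := by
        rw [hm]
        omega
      have hs := H.s0 h0
      have h0' : ¬ 0 < sgp p := by omega
      rw [if_neg h0']
      rcases sign15 hp h2 h with h5 | h5
      · have f3 := (js3 _).1 h5.1
        have f5 := (js5 _).1 h5.2
        have b3 : B3 (sgp p) := by
          unfold Pool.Agent.N809.PQ.B3
          rw [hm]
          omega
        have b5 : B5 (sgp p) := by
          unfold Pool.Agent.N809.PQ.B5
          rw [hm]
          omega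
        have h3 := at3 b3
        rw [r3, if_pos h5.1, zero_mul, hs, zero_add, zero_add] at h3
        have h6 := at5 b5
        have e5 : ra 5 (ps (sgp p) p) = 0 := by
          rw [ra_of (by norm_num), hps, if_pos ((js5 _).2 b5)]
        rw [r5, if_pos h5.2, e5, zero_mul, zero_mul, zero_add, zero_add] at h6
        exact ⟨h6, h3, hs⟩
      · have f3 := (js3n _).1 h5.1
        have f5 := (js5n _).1 h5.2
        have b3 : ¬ B3 (sgp p) := by
          unfold Pool.Agent.N809.PQ.B3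
          rw [hm]
          omega
        have b5 : ¬ B5 (sgp p) := by
          unfold Pool.Agent.N809.PQ.B5
          rw [hm]
          omega
        exact ⟨H.a0 b3, H.c0 b5, hs⟩
  obtain ⟨k1, k2, k3⟩ := key
  refine ⟨k1, k2, x p, y p, k3, ?_, ?_⟩
  · intro q hq
    rw [hPR, mem_singleton] at hq
    subst hq
    rw [if_pos (Int.natCast_dvd.2 (by rw [sgp_abs]))]
  · intro q hq
    rw [hPR, mem_singleton] at hq
    subst hq
    rfl

end

end Pool.Agent.N972.PT
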