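import Pool.Agent.N972.PT.Base

/-!
# PT: prime twists of the curves of conductors 17 and 21
-/

set_option autoImplicit false
set_option linter.all false

namespace Pool.Agent.N972.PT

open Finset
open Pool.Agent.N875.X15 (PR ps sgp sgp_mod sgp_abs ch ra ch_odd recip_ch)
open Pool.Agent.N875.P17 (Lm al)
open Pool.Agent.N809.PQ (Sol21 Sg21 C3 C7)
open Pool.Agent.N919.BS (Rt17)
open Pool.Agent.N916.MO (G17)
open Pool.Agent.N963.JT (R15 R17 r15_iff r17_iff)

variable {p : ℕ}

theorem eq_of_add {a b : ZMod 2} (h : a + b = 0) : b = a := by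
  revert h
  revert a b
  decide

/-- **level 21** -/
theorem sg21_prime (hp : p.Prime) (h2 : p ≠ 2) (h : jacobiSym (-21) p = 1)
    (hx : ¬ (p % 4 = 1 ∧ jacobiSym p 3 = 1 ∧ jacobiSym p 7 = 1)) : Sg21 (sgp p) := by
  have hPR := pr_one hp h2
  have hodd := hp.eq_two_or_odd.resolve_left h2
  have hpos := hp.pos
  have hps : ps (sgp p) p = sgp p := Pool.Agent.N875.X15.ps_odd h2
  have h7 : p ≠ 7 := by
    rintro rfl
    norm_num at h
  have hmem : p ∈ PR (sgp p) := by
    rw [hPR]
    exact mem_singleton_self p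
  have l7 : Lm (sgp p) p 7 = if jacobiSym p 7 = 1 then 0 else 1 := by
    unfold Pool.Agent.N875.P17.Lm
    rw [if_neg h7, Pool.Agent.N875.X15.ps_odd (by norm_num), sg7, ra_of h2, rec7 hp h2]
  intro x y s a c H
  have row := H.row p hmem
  have at3 := H.at3
  have sgn := H.sgn
  rw [hPR] at row at3 sgn
  simp only [sum_singleton] at row at3 sgn
  rw [lm_diag hp h2, zero_mul, add_zero, l7] at row
  have r3 : ra p (-3) = if jacobiSym p 3 = 1 then 0 else 1 := by rw [ra_of h2, rec3 hp h2]
  have key : a = 0 ∧ c = x p ∧ s = (if 0 < sgp p then x p else 0) := by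
    rcases sign21 hp h2 h with ⟨h4, h5⟩ | ⟨h4, h5⟩
    · have hm : sgp p = p := if_pos h4
      have h0 : 0 < sgp p := by
        rw [hm]
        exact_mod_cast hpos
      obtain ⟨e3, e7⟩ : jacobiSym p 3 = -1 ∧ jacobiSym p 7 = -1 := by
        rcases h5 with h5 | h5
        · exact absurd ⟨h4, h5.1, h5.2⟩ hx
        · exact h5
      have f3 := (js3n _).1 e3
      have b3 : ¬ C3 (sgp p) := by
        unfold Pool.Agent.N809.PQ.C3
        rw [hm]
        omega
      have ha := H.a0 b3
      have hal : al (sgp p) p = 0 := by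
        unfold Pool.Agent.N875.P17.al
        rw [hps, if_neg (by omega)]
      have hs := sgn h0
      rw [hal, zero_mul, zero_add, ha, add_zero] at hs
      rw [e7, if_neg (by norm_num), one_mul, ha, zero_mul, add_zero, mul_one] at row
      have hc := eq_of_add row
      refine ⟨ha, hc, ?_⟩
      rw [if_pos h0, ← hc]
      exact (eq_of_add hs).symm
    · have hm : sgp p = -p := if_neg (by omega)
      have h0 : sgp p < 0 := by
        rw [hm]
        omega
      have hs := H.s0 h0
      have h0' : ¬ 0 < sgp p := by omega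
      rw [if_neg h0']
      rcases h5 with h5 | h5
      · have f3 := (js3 _).1 h5.1
        have b3 : ¬ C3 (sgp p) := by
          unfold Pool.Agent.N809.PQ.C3
          rw [hm]
          omega
        have ha := H.a0 b3
        rw [h5.2, if_neg (by norm_num), one_mul, ha, zero_mul, add_zero, mul_one] at row
        exact ⟨ha, eq_of_add row, hs⟩
      · have f3 := (js3n _).1 h5.1
        have b3 : C3 (sgp p) := by
          unfold Pool.Agent.N809.PQ.C3
          rw [hm]
          omega
        rw [r3, h5.2, if_pos rfl, h5.1, if_neg (by norm_num), zero_mul, zero_add, mul_one,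
          mul_zero, add_zero] at row
        have h6 := at3 b3
        have e3 : ra 3 (ps (sgp p) p) = 0 := by
          rw [ra_of (by norm_num), hps, if_pos ((js3 _).2 b3)]
        rw [r3, h5.1, if_neg (by norm_num), one_mul, e3, zero_mul, add_zero, hs, add_zero, row,
          add_zero] at h6
        exact ⟨row, eq_of_add h6, hs⟩
  obtain ⟨k1, k2, k3⟩ := key
  have h7' : ¬ (7 : ℤ) ∣ sgp p := by
    intro h
    have h1 : ((7 : ℕ) : ℤ) ∣ sgp p := h
    rw [Pool.Agent.N875.X15.dvd_sgp] at h1
    rcases (Nat.dvd_prime hp).1 h1 with h8 | h8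
    · omega
    · exact h7 h8.symm
  refine ⟨k1, x p, y p, k3, ?_, ?_, ?_⟩
  · rw [if_neg h7']
    exact k2
  · intro q hq
    rw [hPR, mem_singleton] at hq
    subst hq
    rw [if_pos (Int.natCast_dvd.2 (by rw [sgp_abs]))]
  · intro q hq
    rw [hPR, mem_singleton] at hq
    subst hq
    rw [if_neg h7, add_zero]

/-! ### level 17 -/

theorem sx_prime (hp : p.Prime) (h2 : p ≠ 2) (h4 : p % 4 = 3) (h : jacobiSym p 17 = -1) :
    Pool.Agent.N972.P17.Sx p := by
  have hpf : p.primeFactors = {p} := hp.primeFactors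
  have hLL : Pool.Agent.N972.P17.LL p p p = 0 := by
    unfold Pool.Agent.N972.P17.LL
    rw [if_pos rfl, hpf]
    simp
  have hnu : Pool.Agent.N972.P17.nu p = 1 := by
    unfold Pool.Agent.N972.P17.nu
    rw [if_neg h2, rec17 hp h2, h, if_neg (by norm_num)]
  have hal : Pool.Agent.N972.P17.al p p = 1 := by
    have hstar : Pool.Agent.N972.P17.star p p = -p := by
      unfold Pool.Agent.N972.P17.star
      rw [if_neg h2, if_neg (by omega)]
    have := hp.pos
    unfold Pool.Agent.N972.P17.al
    rw [hstar, if_pos (by omega)]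
  intro x y h1 h2' q hq
  have a1 := h1 p (by rw [hpf]; exact mem_singleton_self p)
  have a2 := h2' p (by rw [hpf]; exact mem_singleton_self p)
  rw [hpf, sum_singleton, hLL, zero_mul, add_zero, hnu, one_mul] at a1
  rw [hpf, sum_singleton, hLL, zero_mul, zero_add, hal, one_mul] at a2
  rw [hpf, mem_singleton] at hq
  subst hq
  exact ⟨a1, a2⟩

theorem js17neg (hp : p.Prime) (a : ℤ) : jacobiSym (-a) 17 = jacobiSym a 17 := by
  rw [show -a = (-1) * a by ring, jacobiSym.mul_left, jneg1 (by norm_num), one_mul]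

theorem r17_prime (hp : p.Prime) (h2 : p ≠ 2) (h : jacobiSym (-17) p = 1)
    (hx : ¬ (p % 4 = 1 ∧ jacobiSym p 17 = 1)) (hs : Squarefree (sgp p)) : R17 (sgp p) := by
  have hpos := hp.pos
  rcases sign17 hp h2 h with h5 | h5
  · exact absurd h5 hx
  · obtain ⟨h4, e17⟩ := h5
    have hm : sgp p = -p := if_neg (by omega)
    rw [r17_iff hs, hm]
    have hneg : (-(p : ℤ)) < 0 := by omega
    have hj : jacobiSym (-(p : ℤ)) 17 = -1 := by
      rw [js17neg hp]
      exact e17
    refine ⟨Or.inr ⟨hneg, by rw [hj]; norm_num⟩, ?_⟩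
    have hK : Pool.Agent.N916.MO.Kn (-(p : ℤ)) = p := by
      unfold Pool.Agent.N916.MO.Kn
      rw [if_pos (by omega)]
      simp
    refine ⟨fun _ => ?_, fun h0 => by omega⟩
    rw [hK]
    refine ⟨fun _ => sx_prime hp h2 h4 e17, fun h17 => ?_⟩
    have := (Nat.prime_dvd_prime_iff_eq (by norm_num : Nat.Prime 17) hp).1 h17
    rw [← this] at h4
    omega

theorem sgp_sq (hp : p.Prime) : Squarefree (sgp p) := by
  rw [← Int.squarefree_natAbs, sgp_abs]
  exact hp.squarefree

theorem sgp_ne (hp : p.Prime) : sgp p ≠ 1 ∧ sgp p ≠ -1 := by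
  have h := hp.two_le
  have := sgp_abs p
  constructor <;> intro h1 <;> rw [h1] at this <;> simp at this <;> omega

theorem r15_prime (hp : p.Prime) (h2 : p ≠ 2) (h : jacobiSym (-15) p = 1)
    (hx : ¬ (p % 4 = 1 ∧ jacobiSym p 3 = 1 ∧ jacobiSym p 5 = 1)) : R15 (sgp p) :=
  (r15_iff _ (sgp_sq hp) (sgp_ne hp).1 (sgp_ne hp).2).1 (sg15_prime hp h2 h hx)

end Pool.Agent.N972.PT
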